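import Pool.Agent.H97.SHL.Targets

/-!
Row EX1 of the board shl_modules: expansion of a function with mean zero in the coordinates of `M`.
-/

set_option autoImplicit false

namespace Pool.Agent.H34.SHL.EX1

open Finset Pool.Agent.H97.SHL

theorem fib {m q : ℕ} (M : Finset (Fin m)) (j : Fin m) (hj : j ∉ M) (y₀ : Fin m → Fin q)
    (v : Fin q) :
    (univ.filter (fun η : Fin m → Fin q => ∀ i, i ∉ insert j M → η i = y₀ i)).filter
      (fun η => η j = v) =
    univ.filter (fun η : Fin m → Fin q => ∀ i, i ∉ M → η i = Function.update y₀ j v i) := by
  ext η
  simp only [mem_filter, mem_univ, true_and, mem_insert, not_or, and_imp]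
  constructor
  · rintro ⟨h, h'⟩ i hi
    by_cases hij : i = j
    · subst hij
      rw [Function.update_self, h']
    · rw [Function.update_of_ne hij]
      exact h i hij hi
  · intro h
    refine ⟨fun i hij hi => ?_, ?_⟩
    · have := h i hi
      rwa [Function.update_of_ne hij] at this
    · have := h j hj
      rwa [Function.update_self] at this

theorem pf_EX1 : T_EX1 := by
  intro m q M e hM y
  revert hM
  induction M using Finset.induction_on with
  | empty =>
    intro _ y₀
    have h1 : (univ.filter (fun η : Fin m → Fin q => ∀ i, i ∉ (∅ : Finset (Fin m)) →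
        η i = y₀ i)) = {y₀} := by
      ext η
      simp only [mem_filter, mem_univ, true_and, notMem_empty, not_false_eq_true, forall_const,
        mem_singleton]
      exact ⟨fun h => funext h, fun h i => by rw [h]⟩
    rw [h1, sum_singleton, prod_empty, mul_one]
    congr 1
  | insert j M' hj ih =>
    intro hM y₀
    have hM' : Mz e M' := fun i hi => hM i (mem_insert_of_mem hi)
    rw [← Finset.sum_fiberwise _ (fun η : Fin m → Fin q => η j)]
    set w : Fin m → Fin q := fun i => if i ∈ M' then y i else y₀ i with hw
    have key : ∀ v : Fin q, ∑ η ∈ (univ.filter (fun η : Fin m → Fin q =>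
        ∀ i, i ∉ insert j M' → η i = y₀ i)).filter (fun η => η j = v),
        e η * ∏ i ∈ insert j M', ((if y i = η i then (1 : ℝ) else 0) - 1 / q) =
        ((if y j = v then (1 : ℝ) else 0) - 1 / q) * e (Function.update w j v) := by
      intro v
      rw [fib M' j hj y₀ v]
      have h2 : ∀ η ∈ univ.filter (fun η : Fin m → Fin q =>
          ∀ i, i ∉ M' → η i = Function.update y₀ j v i),
          e η * ∏ i ∈ insert j M', ((if y i = η i then (1 : ℝ) else 0) - 1 / q) =
          ((if y j = v then (1 : ℝ) else 0) - 1 / q) *
            (e η * ∏ i ∈ M', ((if y i = η i then (1 : ℝ) else 0) - 1 / q)) := by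
        intro η hη
        have h3 : η j = v := by
          have := (mem_filter.1 hη).2 j hj
          rwa [Function.update_self] at this
        rw [prod_insert hj, h3]
        ring
      rw [sum_congr rfl h2, ← mul_sum, ih hM' (Function.update y₀ j v)]
      congr 2
      funext i
      by_cases hij : i = j
      · subst hij
        rw [Function.update_self, if_neg hj, Function.update_self]
      · rw [Function.update_of_ne hij, Function.update_of_ne hij, hw]
    rw [sum_congr rfl (fun v _ => key v)]
    have h4 : ∀ v : Fin q, ((if y j = v then (1 : ℝ) else 0) - 1 / q) *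
        e (Function.update w j v) = (if y j = v then e (Function.update w j v) else 0) -
          1 / q * e (Function.update w j v) := by
      intro v
      split_ifs <;> ring
    rw [sum_congr rfl (fun v _ => h4 v), sum_sub_distrib, ← mul_sum,
      hM j (mem_insert_self j M') w, mul_zero, sub_zero, sum_ite_eq, if_pos (mem_univ _)]
    congr 1
    funext i
    by_cases hij : i = j
    · subst hij
      rw [Function.update_self, if_pos (mem_insert_self _ _)]
    · rw [Function.update_of_ne hij, hw]
      simp only [mem_insert, hij, false_or]

end Pool.Agent.H34.SHL.EX1
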