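import Pool.Agent.H97.SHL.Targets

/-!
Row PH2 of the board shl_modules: the pieces of a good narrow part.
-/

set_option autoImplicit false

namespace Pool.Agent.H34.SHL.PH2

open Finset Pool.Agent.H97.SHL

open Classical in
theorem pf_PH2 (hSUM : T_SUM) (hBLM : T_BLM) (hUNF : T_UNF) : T_PH2 := by
  intro X K _ _ D U Y N T₀ 𝓛 Lf dc nar gd Fam E S A h hd T i hT hi p hp hn hg
  obtain ⟨𝓒₀, hc1, hc2, hc3, hc4, hc5⟩ := hUNF X 𝓛 Lf E.mono S A h hd T i p.1 hi (E.sub _ _ hp)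
  have hb : ∀ c ∈ 𝓒₀, c ∈ bl 𝓛 T₀ {p.1} := fun c hc =>
    (hBLM X 𝓛 {p.1} {p.1} T T₀ (Subset.refl _) hT).1 (hc2 hc)
  have hF : ∀ c ∈ 𝓒₀, Fam c := fun c hc => E.f3 (A i) (hd.mem i hi) p hp c (hb c hc)
  have hS := fun c (hc : c ∈ 𝓒₀) => hSUM X K D U Y N T₀ 𝓛 Lf dc nar gd Fam E c (hF c hc)
  refine ⟨𝓒₀.filter (fun c => ¬ Lf c), (card_filter_le _ _).trans hc1,
    fun c hc => hb c (mem_filter.1 hc).1,
    fun c hc c' hc' => hc3 c (mem_filter.1 hc).1 c' (mem_filter.1 hc').1,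
    fun c hc => ?_, fun c hc => ?_, ?_⟩
  · rw [← hc4]
    exact Finset.subset_biUnion_of_mem id (mem_filter.1 hc).1
  · exact (hc5 c (mem_filter.1 hc).1).resolve_left (mem_filter.1 hc).2
  · have hpd : (𝓒₀ : Set (Finset X)).PairwiseDisjoint id := fun c hc c' hc' hne =>
      hc3 c hc c' hc' hne
    have h1 : ∑ x ∈ p.1, D x = ∑ c ∈ 𝓒₀, ∑ x ∈ c, D x := by
      rw [← hc4, Finset.sum_biUnion hpd]
      rfl
    have h2 : (p.1.card : ℝ) = ∑ c ∈ 𝓒₀, (c.card : ℝ) := by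
      rw [← hc4, Finset.card_biUnion hpd, Nat.cast_sum]
      rfl
    have h3 : ∑ c ∈ 𝓒₀.filter (fun c => ¬ Lf c), ((gs dc nar gd c).card : ℝ) =
        ∑ c ∈ 𝓒₀, ((gs dc nar gd c).card : ℝ) := by
      rw [Finset.sum_filter]
      refine sum_congr rfl fun c hc => ?_
      split_ifs with hl
      · rw [(hS c hc).2.1 hl, card_empty, Nat.cast_zero]
      · rfl
    have h4 : (p.1.card : ℝ) ≤ 2 * ∑ x ∈ p.1, D x :=
      E.lo (A i) (E.f2 _ (hd.mem i hi)) p hp hn hg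
    have h5 : 8 * ∑ x ∈ p.1, D x ≤ 8 * U * ∑ c ∈ 𝓒₀, ((gs dc nar gd c).card : ℝ) +
        p.1.card + 𝓒₀.card * (8 * U * Y) := by
      have h6 : ∑ c ∈ 𝓒₀, (8 * ∑ x ∈ c, D x) ≤
          ∑ c ∈ 𝓒₀, (8 * U * ((gs dc nar gd c).card : ℝ) + c.card + 8 * U * Y) :=
        sum_le_sum fun c hc => (hS c hc).1
      rw [← mul_sum, sum_add_distrib, sum_add_distrib, ← mul_sum, sum_const, nsmul_eq_mul,
        ← h1, ← h2] at h6
      exact h6
    have h7 : (𝓒₀.card : ℝ) * (8 * U * Y) ≤ 2 ^ T * (8 * U * Y) := by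
      apply mul_le_mul_of_nonneg_right
      · exact_mod_cast hc1
      · have := E.U1
        have := E.Y0
        positivity
    rw [h3]
    nlinarith [h4, h5, h7]

end Pool.Agent.H34.SHL.PH2
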